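import Pool.Agent.H387R3.ZF.B1

/-!
# The linear form for arbitrary rational coefficients
-/

open Polynomial Pool.Agent.H337R2

namespace Pool.Agent.ZF

noncomputable section

namespace Mea

theorem B1_gen {n : ℕ} (hn : 1 ≤ n) (α β : ℚ) (Q : ℚ[X]) (hQ : Q.natDegree ≤ 8 * n - 2) :
    ∃ F2 F1 : ℝ,
      HasSum (fun t : ℕ => ((PowerSeries.coeff 2 (RS (sF n) mF (PF n * Q) (t : ℚ)) : ℚ) : ℝ)) F2 ∧
      HasSum (fun t : ℕ => ((PowerSeries.coeff 1 (RS (sF n) mF (PF n * Q) (t : ℚ)) : ℚ) : ℝ)) F1 ∧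
      ((NL n α β Q : ℚ) : ℝ) = 2 * F2 + 3 * β * F1 -
        6 * (zr 4 - α - β * zr 3) * ((rho n (PF n * Q) : ℚ) : ℝ) := by
  refine ⟨_, _, B1_form hn Q hQ 2 (by norm_num) le_rfl, B1_form hn Q hQ 1 le_rfl (by norm_num), ?_⟩
  have hres := residue_sum (sF n) mF (PF n * Q) (B1_natDegree hn Q hQ)
  have hres' : ∑ k ∈ sF n, ((pa (sF n) mF (PF n * Q) k 1 : ℚ) : ℝ) = 0 := by
    have : (((∑ k ∈ sF n, pa (sF n) mF (PF n * Q) k 1 : ℚ)) : ℝ) = 0 := by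
      rw [hres]; simp
    push_cast at this
    exact this
  rw [NL_apply]
  unfold xf rho h4 h3
  have key := B1_alg (sF n) (fun k => ((pa (sF n) mF (PF n * Q) k 2 : ℚ) : ℝ))
    (fun k => ((pa (sF n) mF (PF n * Q) k 1 : ℚ) : ℝ)) (fun k => ((hs 4 (k - 2 * n - 1) : ℚ) : ℝ))
    (fun k => ((hs 3 (k - 2 * n - 1) : ℚ) : ℝ)) (fun k => ((hs 2 (k - 2 * n - 1) : ℚ) : ℝ))
    (zr 4) (zr 3) (zr 2) β hres'
  push_cast at key ⊢
  rw [← key]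
  ring

end Mea

end

end Pool.Agent.ZF
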