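import Pool.Agent.H387R3.ZF.Defs
import Pool.Agent.H383.Z34.GDefs

/-!
# The pole functional is bounded by the values on the line
-/

open Polynomial Pool.Agent.H337R2

namespace Pool.Agent.ZF

noncomputable section

namespace Mea

/-! ### the lower bound of the weight -/

lemma zl_add_re (y : ℝ) (m : ℕ) : (zl y + (m : ℂ)).re = m - 1 / 2 := by
  unfold zl
  simp
  ring

lemma zl_add_norm_ge (y : ℝ) {m : ℕ} (hm : 1 ≤ m) : (m : ℝ) / 2 ≤ ‖zl y + (m : ℂ)‖ := by
  have h1 := Complex.abs_re_le_norm (zl y + (m : ℂ))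
  rw [zl_add_re] at h1
  have h2 : (1 : ℝ) ≤ m := by exact_mod_cast hm
  have h3 : (m : ℝ) - 1 / 2 ≤ |(m : ℝ) - 1 / 2| := le_abs_self _
  linarith

lemma zl_add_norm_le (y : ℝ) (m : ℕ) (hm : 1 ≤ m) : ‖zl y + (m : ℂ)‖ ≤ m + |y| := by
  have h1 : zl y + (m : ℂ) = (((m : ℝ) - 1 / 2 : ℝ) : ℂ) + (y : ℂ) * Complex.I := by
    unfold zl
    push_cast
    ring
  rw [h1]
  refine (norm_add_le _ _).trans ?_
  rw [norm_mul, Complex.norm_I, mul_one, Complex.norm_real, Complex.norm_real, Real.norm_eq_abs,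
    Real.norm_eq_abs]
  have h2 : (1 : ℝ) ≤ m := by exact_mod_cast hm
  rw [abs_of_nonneg (by linarith : (0 : ℝ) ≤ (m : ℝ) - 1 / 2)]
  linarith

lemma pow_le_fac_exp (x : ℝ) (hx : 0 ≤ x) (N : ℕ) : x ^ N ≤ Real.exp x * (N.factorial : ℝ) := by
  have h := Real.pow_div_factorial_le_exp x hx N
  rwa [div_le_iff₀ (by positivity)] at h

lemma NG_lower {n : ℕ} (hn : 1 ≤ n) {y : ℝ} (hy0 : 0 ≤ y) (hy : y ≤ 8 * n) :
    Real.exp (-(34 * n)) ≤ NG n y := by
  have hn1 : (1 : ℝ) ≤ n := by exact_mod_cast hn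
  unfold NG
  -- numerator
  have h1 : ((((2 * n).factorial : ℕ) : ℝ) / 2 ^ (2 * n)) ^ 3 ≤
      ∏ m ∈ Finset.Icc 1 (2 * n), ‖zl y + (m : ℂ)‖ ^ 3 := by
    rw [Finset.prod_pow]
    apply pow_le_pow_left₀ (by positivity)
    have e1 : (((2 * n).factorial : ℕ) : ℝ) / 2 ^ (2 * n) = ∏ m ∈ Finset.Icc 1 (2 * n), ((m : ℝ) / 2) := by
      rw [Finset.prod_div_distrib, Finset.prod_const, Nat.card_Icc, Nat.add_sub_cancel]
      congr 1
      have e0 : Finset.Icc 1 (2 * n) = Finset.Ico 1 (2 * n + 1) := by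
        ext a
        rw [Finset.mem_Icc, Finset.mem_Ico]
        omega
      rw [e0, ← Finset.prod_Ico_id_eq_factorial]
      push_cast
      rfl
    rw [e1]
    apply Finset.prod_le_prod
    · intro m _; positivity
    · intro m hm
      exact zl_add_norm_ge y (Finset.mem_Icc.1 hm).1
  have h2 : ∏ k ∈ Finset.Icc (3 * n + 1) (10 * n), ‖zl y + (k : ℂ)‖ ^ 2 ≤ (18 * (n : ℝ)) ^ (14 * n) := by
    have e2 : (18 * (n : ℝ)) ^ (14 * n) = ∏ _k ∈ Finset.Icc (3 * n + 1) (10 * n), (18 * (n : ℝ)) ^ 2 := by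
      rw [Finset.prod_const, Nat.card_Icc, ← pow_mul]
      congr 1
      omega
    rw [e2]
    apply Finset.prod_le_prod
    · intro m _; positivity
    · intro m hm
      rw [Finset.mem_Icc] at hm
      apply pow_le_pow_left₀ (norm_nonneg _)
      refine (zl_add_norm_le y m (by omega)).trans ?_
      rw [abs_of_nonneg hy0]
      have : (m : ℝ) ≤ 10 * n := by exact_mod_cast hm.2
      linarith
  have hden : 0 < ∏ k ∈ Finset.Icc (3 * n + 1) (10 * n), ‖zl y + (k : ℂ)‖ ^ 2 := by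
    apply Finset.prod_pos
    intro m hm
    rw [Finset.mem_Icc] at hm
    have := zl_add_norm_ge y (m := m) (by omega)
    have h3 : (0 : ℝ) < m := by exact_mod_cast (by omega : 0 < m)
    have h4 : 0 < ‖zl y + (m : ℂ)‖ := lt_of_lt_of_le (by positivity) this
    positivity
  -- factorial
  have h7 : (7 * (n : ℝ)) ^ (14 * n) ≤ Real.exp (14 * n) * (((7 * n).factorial : ℕ) : ℝ) ^ 2 := by
    have h := pow_le_fac_exp (7 * (n : ℝ)) (by positivity) (7 * n)
    have h' := pow_le_pow_left₀ (by positivity) h 2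
    rw [← pow_mul, mul_pow (Real.exp _), ← Real.exp_nat_mul] at h'
    have e3 : 7 * n * 2 = 14 * n := by ring
    have e4 : ((2 : ℕ) : ℝ) * (7 * (n : ℝ)) = 14 * n := by push_cast; ring
    rw [e3, e4] at h'
    exact h'
  have h8 : (18 * (n : ℝ)) ^ (14 * n) ≤ Real.exp (14 * n) * (7 * (n : ℝ)) ^ (14 * n) := by
    have e5 : Real.exp (14 * n) = (Real.exp 1) ^ (14 * n) := by
      rw [← Real.exp_nat_mul]
      push_cast
      rw [mul_one]
    rw [e5, ← mul_pow]
    apply pow_le_pow_left₀ (by positivity)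
    have := Real.exp_one_gt_d9
    nlinarith
  have h9 : (2 : ℝ) ^ (6 * n) ≤ Real.exp (6 * n) := by
    have e6 : Real.exp (6 * n) = (Real.exp 1) ^ (6 * n) := by
      rw [← Real.exp_nat_mul]
      push_cast
      rw [mul_one]
    rw [e6]
    apply pow_le_pow_left₀ (by norm_num)
    have := Real.exp_one_gt_d9
    linarith
  have hfpos : (0 : ℝ) < (((2 * n).factorial : ℕ) : ℝ) := by positivity
  rw [le_div_iff₀ hden]
  calc Real.exp (-(34 * n)) * ∏ k ∈ Finset.Icc (3 * n + 1) (10 * n), ‖zl y + (k : ℂ)‖ ^ 2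
      ≤ Real.exp (-(34 * n)) * (Real.exp (14 * n) * (Real.exp (14 * n) * (((7 * n).factorial : ℕ) : ℝ) ^ 2)) := by
        apply mul_le_mul_of_nonneg_left _ (Real.exp_pos _).le
        refine h2.trans (h8.trans ?_)
        exact mul_le_mul_of_nonneg_left h7 (Real.exp_pos _).le
    _ = Real.exp (-(6 * n)) * (((7 * n).factorial : ℕ) : ℝ) ^ 2 := by
        rw [← mul_assoc, ← mul_assoc, ← Real.exp_add, ← Real.exp_add]
        congr 2
        ring
    _ ≤ ((2 : ℝ) ^ (6 * n))⁻¹ * (((7 * n).factorial : ℕ) : ℝ) ^ 2 := by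
        apply mul_le_mul_of_nonneg_right _ (by positivity)
        rw [Real.exp_neg]
        exact inv_anti₀ (by positivity) h9
    _ = (((7 * n).factorial : ℕ) : ℝ) ^ 2 / (((2 * n).factorial : ℕ) : ℝ) ^ 3 *
        ((((2 * n).factorial : ℕ) : ℝ) / 2 ^ (2 * n)) ^ 3 := by
        rw [div_pow, ← pow_mul]
        have e7 : 2 * n * 3 = 6 * n := by ring
        rw [e7]
        field_simp
    _ ≤ _ := mul_le_mul_of_nonneg_left h1 (by positivity)

/-! ### Lagrange interpolation on the line -/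

/-- product of the distances of `j` to the other points of `{0, …, D}` -/
lemma prod_dist (D j : ℕ) (hj : j ≤ D) :
    ∏ l ∈ (Finset.range (D + 1)).erase j, |(j : ℝ) - l| = (j.factorial : ℝ) * ((D - j).factorial : ℝ) := by
  have hs : (Finset.range (D + 1)).erase j = Finset.range j ∪ Finset.Ico (j + 1) (D + 1) := by
    ext l
    simp only [Finset.mem_erase, Finset.mem_range, Finset.mem_union, Finset.mem_Ico]
    omega
  rw [hs, Finset.prod_union (by
    rw [Finset.disjoint_left]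
    intro l h1 h2
    rw [Finset.mem_range] at h1
    rw [Finset.mem_Ico] at h2
    omega)]
  congr 1
  · rw [← Finset.prod_range_reflect, ← Finset.prod_range_add_one_eq_factorial]
    push_cast
    apply Finset.prod_congr rfl
    intro l hl
    rw [Finset.mem_range] at hl
    have : ((j - 1 - l : ℕ) : ℝ) = (j : ℝ) - 1 - l := by
      rw [Nat.sub_sub, Nat.cast_sub (by omega)]
      push_cast
      ring
    rw [this, abs_of_nonneg]
    · ring
    · have : (l : ℝ) + 1 ≤ j := by exact_mod_cast hl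
      linarith [Nat.cast_nonneg (α := ℝ) l]
  · rw [Finset.prod_Ico_eq_prod_range, ← Finset.prod_range_add_one_eq_factorial]
    have e : D + 1 - (j + 1) = D - j := by omega
    rw [e]
    push_cast
    apply Finset.prod_congr rfl
    intro l _
    rw [abs_sub_comm, abs_of_nonneg]
    · push_cast; ring
    · push_cast
      linarith [Nat.cast_nonneg (α := ℝ) l]

lemma fac_ge (D j : ℕ) (hj : j ≤ D) : (D.factorial : ℝ) / 2 ^ D ≤ (j.factorial : ℝ) * ((D - j).factorial : ℝ) := by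
  rw [div_le_iff₀ (by positivity)]
  have h1 := Nat.choose_mul_factorial_mul_factorial hj
  have h2 : D.choose j ≤ 2 ^ D := Nat.choose_le_two_pow D j
  have h3 : D.factorial ≤ 2 ^ D * (j.factorial * (D - j).factorial) := by
    rw [← h1, mul_assoc]
    exact Nat.mul_le_mul_right _ h2
  have h4 : (D.factorial : ℝ) ≤ 2 ^ D * ((j.factorial : ℝ) * ((D - j).factorial : ℝ)) := by
    exact_mod_cast h3
  linarith

lemma lagr_bound {n : ℕ} (Q : ℚ[X]) (D : ℕ) (hD : D ≤ 8 * n) (hQ : Q.natDegree ≤ D)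
    (k : ℕ) (hk1 : 1 ≤ k) (hk : k ≤ 10 * n) (A : ℝ)
    (hA : ∀ j : ℕ, j ≤ D → ‖aeval (zl j) Q‖ ≤ A) :
    |((Q.eval (-(k : ℚ)) : ℚ) : ℝ)| ≤ ((D : ℝ) + 1) * (A * (2 ^ D * Real.exp (18 * n))) := by
  classical
  have hA0 : 0 ≤ A := (norm_nonneg _).trans (hA 0 (Nat.zero_le _))
  have hn0 : (0 : ℝ) ≤ n := Nat.cast_nonneg n
  set f : ℂ[X] := Q.map (algebraMap ℚ ℂ) with hf
  have hinj : Set.InjOn (fun j : ℕ => zl (j : ℝ)) (Finset.range (D + 1) : Set ℕ) := by
    intro a _ b _ hab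
    have := congrArg Complex.im hab
    simp only [zl] at this
    simp at this
    exact this
  have hdeg : f.degree < (Finset.range (D + 1)).card := by
    rw [Finset.card_range]
    refine lt_of_le_of_lt (Polynomial.degree_map_le) ?_
    refine lt_of_le_of_lt Polynomial.degree_le_natDegree ?_
    exact_mod_cast (by omega : Q.natDegree < D + 1)
  have hint := Lagrange.eq_interpolate hinj hdeg
  have hev : f.eval (-(k : ℂ)) = ∑ j ∈ Finset.range (D + 1), f.eval (zl (j : ℝ)) *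
      ∏ l ∈ (Finset.range (D + 1)).erase j, ((zl (j : ℝ) - zl (l : ℝ))⁻¹ * (-(k : ℂ) - zl (l : ℝ))) := by
    conv_lhs => rw [hint]
    rw [Lagrange.interpolate_apply, Polynomial.eval_finsetSum]
    apply Finset.sum_congr rfl
    intro j _
    rw [Polynomial.eval_mul, Polynomial.eval_C]
    congr 1
    unfold Lagrange.basis
    rw [Polynomial.eval_prod]
    apply Finset.prod_congr rfl
    intro l _
    unfold Lagrange.basisDivisor
    simp
  have hfe : ∀ z : ℂ, f.eval z = aeval z Q := by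
    intro z
    rw [hf, Polynomial.eval_map_algebraMap]
  have h0 : |((Q.eval (-(k : ℚ)) : ℚ) : ℝ)| = ‖f.eval (-(k : ℂ))‖ := by
    have e : f.eval (-(k : ℂ)) = (((Q.eval (-(k : ℚ)) : ℚ) : ℝ) : ℂ) := by
      rw [hf]
      have : (-(k : ℂ)) = algebraMap ℚ ℂ (-(k : ℚ)) := by simp
      rw [this, Polynomial.eval_map_algebraMap, Polynomial.aeval_algebraMap_apply]
      simp
    rw [e, Complex.norm_real, Real.norm_eq_abs]
  rw [h0, hev]
  refine (norm_sum_le _ _).trans ?_
  have hterm : ∀ j ∈ Finset.range (D + 1), ‖f.eval (zl (j : ℝ)) *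
      ∏ l ∈ (Finset.range (D + 1)).erase j, ((zl (j : ℝ) - zl (l : ℝ))⁻¹ * (-(k : ℂ) - zl (l : ℝ)))‖ ≤
      A * (2 ^ D * Real.exp (18 * n)) := by
    intro j hj
    have hjD : j ≤ D := by
      rw [Finset.mem_range] at hj
      omega
    rw [norm_mul, hfe]
    apply mul_le_mul (hA j hjD) _ (norm_nonneg _) hA0
    rw [norm_prod]
    have e1 : ∏ l ∈ (Finset.range (D + 1)).erase j, ‖(zl (j : ℝ) - zl (l : ℝ))⁻¹ * (-(k : ℂ) - zl (l : ℝ))‖ =
        (∏ l ∈ (Finset.range (D + 1)).erase j, |(j : ℝ) - l|)⁻¹ *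
        ∏ l ∈ (Finset.range (D + 1)).erase j, ‖-(k : ℂ) - zl (l : ℝ)‖ := by
      rw [← Finset.prod_inv_distrib, ← Finset.prod_mul_distrib]
      apply Finset.prod_congr rfl
      intro l _
      rw [norm_mul, norm_inv]
      congr 2
      have : zl (j : ℝ) - zl (l : ℝ) = (((j : ℝ) - l : ℝ) : ℂ) * Complex.I := by
        unfold zl
        push_cast
        ring
      rw [this, norm_mul, Complex.norm_I, mul_one, Complex.norm_real, Real.norm_eq_abs]
    rw [e1, prod_dist D j hjD]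
    have h3 : ∏ l ∈ (Finset.range (D + 1)).erase j, ‖-(k : ℂ) - zl (l : ℝ)‖ ≤ (18 * (n : ℝ)) ^ D := by
      have hc : ((Finset.range (D + 1)).erase j).card = D := by
        rw [Finset.card_erase_of_mem hj, Finset.card_range]
        rfl
      calc _ ≤ ∏ _l ∈ (Finset.range (D + 1)).erase j, (18 * (n : ℝ)) := by
            apply Finset.prod_le_prod
            · intro l _; exact norm_nonneg _
            · intro l hl
              have hl' : l ≤ 8 * n := by
                have := Finset.mem_range.1 (Finset.mem_of_mem_erase hl)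
                omega
              have e2 : -(k : ℂ) - zl (l : ℝ) = -(zl (l : ℝ) + (k : ℂ)) := by ring
              rw [e2, norm_neg]
              refine (zl_add_norm_le _ k hk1).trans ?_
              rw [abs_of_nonneg (Nat.cast_nonneg l)]
              have h4 : (k : ℝ) ≤ 10 * n := by exact_mod_cast hk
              have h5 : (l : ℝ) ≤ 8 * n := by exact_mod_cast hl'
              linarith
        _ = _ := by rw [Finset.prod_const, hc]
    have h6 := fac_ge D j hjD
    have h7 := pow_le_fac_exp (18 * (n : ℝ)) (by positivity) D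
    have hDf : (0 : ℝ) < (D.factorial : ℝ) := by positivity
    calc ((j.factorial : ℝ) * ((D - j).factorial : ℝ))⁻¹ *
          ∏ l ∈ (Finset.range (D + 1)).erase j, ‖-(k : ℂ) - zl (l : ℝ)‖
        ≤ ((D.factorial : ℝ) / 2 ^ D)⁻¹ * (Real.exp (18 * n) * (D.factorial : ℝ)) := by
          apply mul_le_mul _ (h3.trans h7) (Finset.prod_nonneg fun _ _ => norm_nonneg _) (by positivity)
          exact inv_anti₀ (by positivity) h6
      _ = _ := by
          rw [inv_div]
          field_simp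
  refine (Finset.sum_le_sum hterm).trans ?_
  rw [Finset.sum_const, Finset.card_range, nsmul_eq_mul]
  push_cast
  exact le_rfl

/-! ### The pole functional -/

lemma coeff0_TS (c : ℚ) (P : ℚ[X]) : PowerSeries.coeff 0 (TS c P) = P.eval c := by
  unfold TS
  show PowerSeries.coeff 0 ((Polynomial.taylor c P : ℚ[X]) : PowerSeries ℚ) = P.eval c
  rw [Polynomial.coeff_coe, Polynomial.taylor_coeff_zero]

lemma coeff0_iv (a : ℚ) : PowerSeries.coeff 0 (iv a) = a⁻¹ := by
  unfold iv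
  rw [PowerSeries.coeff_mk]
  simp

lemma pa_two (n : ℕ) (P : ℚ[X]) (k : ℕ) : pa (sF n) mF P k 2 =
    P.eval (-(k : ℚ)) * ∏ m ∈ (sF n).erase k, ((-(k : ℚ) + m)⁻¹) ^ 2 := by
  unfold pa pfc VV
  rw [if_pos (by simp)]
  have e : mF k - 2 = 0 := rfl
  rw [e, PowerSeries.coeff_zero_eq_constantCoeff_apply, map_mul, map_prod,
    ← PowerSeries.coeff_zero_eq_constantCoeff_apply, coeff0_TS]
  congr 1
  apply Finset.prod_congr rfl
  intro m _
  rw [map_pow, ← PowerSeries.coeff_zero_eq_constantCoeff_apply, coeff0_iv]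

/-- the distances from a pole to the others -/
lemma prod_poles {n k : ℕ} (hk : k ∈ sF n) :
    (((7 * n - 1).factorial : ℕ) : ℝ) / 2 ^ (7 * n - 1) ≤ ∏ m ∈ (sF n).erase k, |-(k : ℝ) + m| := by
  rw [Finset.mem_Icc] at hk
  have hn : 1 ≤ n := by omega
  set j := k - (3 * n + 1) with hj
  have hjk : k = j + (3 * n + 1) := by omega
  have hjD : j ≤ 7 * n - 1 := by omega
  have h1 := fac_ge (7 * n - 1) j hjD
  rw [← prod_dist (7 * n - 1) j hjD] at h1
  refine h1.trans (le_of_eq ?_)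
  have hs : (sF n).erase k = ((Finset.range (7 * n - 1 + 1)).erase j).image (fun l => l + (3 * n + 1)) := by
    ext m
    simp only [Finset.mem_erase, Finset.mem_image, Finset.mem_range, Finset.mem_Icc]
    constructor
    · rintro ⟨h2, h3, h4⟩
      exact ⟨m - (3 * n + 1), ⟨by omega, by omega⟩, by omega⟩
    · rintro ⟨l, ⟨h2, h3⟩, rfl⟩
      exact ⟨by omega, by omega, by omega⟩
  rw [hs, Finset.prod_image (fun a _ b _ h => by omega)]
  apply Finset.prod_congr rfl
  intro l _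
  rw [hjk, abs_sub_comm]
  congr 1
  push_cast
  ring

lemma PF_eval_le {n k : ℕ} (hk : k ∈ sF n) : |(((PF n).eval (-(k : ℚ)) : ℚ) : ℝ)| ≤
    (((7 * n).factorial : ℕ) : ℝ) ^ 2 * Real.exp (30 * n) := by
  rw [Finset.mem_Icc] at hk
  have hn : 1 ≤ n := by omega
  unfold PF
  rw [Polynomial.eval_mul, Polynomial.eval_C, Polynomial.eval_prod]
  push_cast
  rw [abs_mul, Finset.abs_prod]
  have h1 : ∏ j ∈ Finset.Icc 1 (2 * n), |((((X + C (j : ℚ)) ^ 3 : ℚ[X]).eval (-(k : ℚ)) : ℚ) : ℝ)| ≤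
      (10 * (n : ℝ)) ^ (2 * n * 3) := by
    have hc : (10 * (n : ℝ)) ^ (2 * n * 3) = ∏ _j ∈ Finset.Icc 1 (2 * n), (10 * (n : ℝ)) ^ 3 := by
      rw [Finset.prod_const, Nat.card_Icc, ← pow_mul]
      congr 1
      omega
    rw [hc]
    apply Finset.prod_le_prod
    · intro j _; exact abs_nonneg _
    · intro j hj
      rw [Finset.mem_Icc] at hj
      rw [Polynomial.eval_pow, Polynomial.eval_add, Polynomial.eval_X, Polynomial.eval_C]
      push_cast
      rw [abs_pow]
      apply pow_le_pow_left₀ (abs_nonneg _)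
      have h2 : (j : ℝ) ≤ 2 * n := by exact_mod_cast hj.2
      have h3 : (k : ℝ) ≤ 10 * n := by exact_mod_cast hk.2
      have h4 : (0 : ℝ) ≤ j := Nat.cast_nonneg j
      have h5 : (0 : ℝ) ≤ k := Nat.cast_nonneg k
      have h6 : (0 : ℝ) ≤ n := Nat.cast_nonneg n
      rw [abs_le]
      constructor <;> linarith
  have h5 : (10 * (n : ℝ)) ^ (2 * n * 3) ≤ Real.exp (30 * n) * (((2 * n).factorial : ℕ) : ℝ) ^ 3 := by
    have h := pow_le_fac_exp (10 * (n : ℝ)) (by positivity) (2 * n)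
    have h' := pow_le_pow_left₀ (by positivity) h 3
    rw [← pow_mul, mul_pow (Real.exp _), ← Real.exp_nat_mul] at h'
    have e4 : ((3 : ℕ) : ℝ) * (10 * (n : ℝ)) = 30 * n := by push_cast; ring
    rw [e4] at h'
    exact h'
  have h6 : |((cF n : ℚ) : ℝ)| = (((7 * n).factorial : ℕ) : ℝ) ^ 2 / (((2 * n).factorial : ℕ) : ℝ) ^ 3 := by
    unfold cF
    push_cast
    rw [abs_of_nonneg (by positivity)]
  rw [h6]
  have hf : (0 : ℝ) < (((2 * n).factorial : ℕ) : ℝ) := by positivity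
  calc _ ≤ (((7 * n).factorial : ℕ) : ℝ) ^ 2 / (((2 * n).factorial : ℕ) : ℝ) ^ 3 *
        (Real.exp (30 * n) * (((2 * n).factorial : ℕ) : ℝ) ^ 3) :=
        mul_le_mul_of_nonneg_left (h1.trans h5) (by positivity)
    _ = _ := by field_simp

lemma exp_ge_pow (a : ℝ) (ha : 0 ≤ a) (he : a ≤ Real.exp 1) (N : ℕ) : a ^ N ≤ Real.exp N := by
  have e : Real.exp (N : ℝ) = (Real.exp 1) ^ N := by
    rw [← Real.exp_nat_mul, mul_one]
  rw [e]
  exact pow_le_pow_left₀ ha he N

lemma b_le {n k : ℕ} (hk : k ∈ sF n) (Q : ℚ[X]) (A : ℝ) (hA : |((Q.eval (-(k : ℚ)) : ℚ) : ℝ)| ≤ A) :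
    |((pa (sF n) mF (PF n * Q) k 2 : ℚ) : ℝ)| ≤ Real.exp (58 * n) * A := by
  have hk' := hk
  rw [Finset.mem_Icc] at hk'
  have hn : 1 ≤ n := by omega
  have hn1 : (1 : ℝ) ≤ n := by exact_mod_cast hn
  have hA0 : 0 ≤ A := (abs_nonneg _).trans hA
  rw [pa_two, Polynomial.eval_mul]
  push_cast
  rw [abs_mul, abs_mul, Finset.abs_prod]
  have h1 := PF_eval_le hk
  have h2 : ∏ m ∈ (sF n).erase k, |((-(k : ℝ) + m)⁻¹) ^ 2| =
      ((∏ m ∈ (sF n).erase k, |-(k : ℝ) + m|)⁻¹) ^ 2 := by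
    rw [← Finset.prod_inv_distrib, ← Finset.prod_pow]
    apply Finset.prod_congr rfl
    intro m _
    rw [abs_pow, abs_inv]
  rw [h2]
  have h3 := prod_poles hk
  have hf : (0 : ℝ) < (((7 * n - 1).factorial : ℕ) : ℝ) := by positivity
  have h4 : ((∏ m ∈ (sF n).erase k, |-(k : ℝ) + m|)⁻¹) ^ 2 ≤
      (((((7 * n - 1).factorial : ℕ) : ℝ) / 2 ^ (7 * n - 1))⁻¹) ^ 2 := by
    apply pow_le_pow_left₀
    · exact inv_nonneg.2 (Finset.prod_nonneg fun _ _ => abs_nonneg _)
    · exact inv_anti₀ (by positivity) h3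
  have h7 : (((7 * n).factorial : ℕ) : ℝ) = 7 * n * (((7 * n - 1).factorial : ℕ) : ℝ) := by
    have e : 7 * n = (7 * n - 1) + 1 := by omega
    have := Nat.factorial_succ (7 * n - 1)
    rw [← e] at this
    rw [this]
    push_cast
    ring
  have h8 : ((2 : ℝ) ^ (7 * n - 1)) ^ 2 ≤ Real.exp (14 * n) := by
    rw [← pow_mul]
    calc (2 : ℝ) ^ ((7 * n - 1) * 2) ≤ 2 ^ (14 * n) := pow_le_pow_right₀ (by norm_num) (by omega)
      _ ≤ Real.exp ((14 * n : ℕ) : ℝ) := exp_ge_pow 2 (by norm_num) (by have := Real.exp_one_gt_d9; linarith) _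
      _ = _ := by push_cast; rfl
  have h9 : (7 * (n : ℝ)) ^ 2 ≤ Real.exp (14 * n) := by
    have h := Real.add_one_le_exp (7 * (n : ℝ))
    have h' := pow_le_pow_left₀ (by positivity) (by linarith : 7 * (n : ℝ) ≤ Real.exp (7 * n)) 2
    rw [← Real.exp_nat_mul] at h'
    have e4 : ((2 : ℕ) : ℝ) * (7 * (n : ℝ)) = 14 * n := by push_cast; ring
    rwa [e4] at h'
  calc |(((PF n).eval (-(k : ℚ)) : ℚ) : ℝ)| * |((Q.eval (-(k : ℚ)) : ℚ) : ℝ)| *
        ((∏ m ∈ (sF n).erase k, |-(k : ℝ) + m|)⁻¹) ^ 2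
      ≤ ((((7 * n).factorial : ℕ) : ℝ) ^ 2 * Real.exp (30 * n) * A) *
        (((((7 * n - 1).factorial : ℕ) : ℝ) / 2 ^ (7 * n - 1))⁻¹) ^ 2 := by
        apply mul_le_mul _ h4 (by positivity) (by positivity)
        exact mul_le_mul h1 hA (abs_nonneg _) (by positivity)
    _ = (7 * (n : ℝ)) ^ 2 * (((2 : ℝ) ^ (7 * n - 1)) ^ 2) * Real.exp (30 * n) * A := by
        rw [h7, inv_div, div_pow]
        field_simp
    _ ≤ Real.exp (14 * n) * Real.exp (14 * n) * Real.exp (30 * n) * A := by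
        apply mul_le_mul_of_nonneg_right _ hA0
        apply mul_le_mul_of_nonneg_right _ (Real.exp_pos _).le
        exact mul_le_mul h9 h8 (by positivity) (Real.exp_pos _).le
    _ = _ := by
        rw [← Real.exp_add, ← Real.exp_add]
        congr 2
        ring

/-- **the pole functional** -/
theorem rho_le {n : ℕ} (hn : 1 ≤ n) (Q : ℚ[X]) (hQ : Q.natDegree ≤ 8 * n - 2) (B : ℝ)
    (hB : ∀ y : ℝ, NG n y * ‖aeval (zl y) Q‖ * Real.exp (-(2 * Real.pi * |y|)) ≤ B * (1 + y ^ 2)⁻¹) :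
    |((rho n (PF n * Q) : ℚ) : ℝ)| ≤ Real.exp (200 * n) * B := by
  have hn1 : (1 : ℝ) ≤ n := by exact_mod_cast hn
  have hNG0 : ∀ y : ℝ, 0 ≤ NG n y := fun y => by unfold NG; positivity
  have hB0 : 0 ≤ B := by
    have h := hB 0
    have h2 : 0 ≤ NG n 0 * ‖aeval (zl 0) Q‖ * Real.exp (-(2 * Real.pi * |0|)) :=
      mul_nonneg (mul_nonneg (hNG0 0) (norm_nonneg _)) (Real.exp_pos _).le
    have h3 : B * (1 + (0 : ℝ) ^ 2)⁻¹ = B := by norm_num
    rw [h3] at h
    exact h2.trans h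
  -- values at the nodes
  have hA : ∀ j : ℕ, j ≤ 8 * n - 2 → ‖aeval (zl j) Q‖ ≤ B * Real.exp (85 * n) := by
    intro j hj
    have hj8 : (j : ℝ) ≤ 8 * n := by exact_mod_cast (by omega : j ≤ 8 * n)
    have hj0 : (0 : ℝ) ≤ j := Nat.cast_nonneg j
    have h1 := hB (j : ℝ)
    rw [abs_of_nonneg hj0] at h1
    have h2 : B * (1 + (j : ℝ) ^ 2)⁻¹ ≤ B := by
      apply mul_le_of_le_one_right hB0
      apply inv_le_one_of_one_le₀
      nlinarith
    have h3 := NG_lower hn hj0 hj8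
    have h4 : Real.exp (-(51 * n)) ≤ Real.exp (-(2 * Real.pi * j)) := by
      apply Real.exp_le_exp.2
      have := Real.pi_lt_d2
      have hpi := Real.pi_pos
      nlinarith
    have h5 : Real.exp (-(34 * n)) * ‖aeval (zl j) Q‖ * Real.exp (-(51 * n)) ≤ B := by
      refine le_trans ?_ (h1.trans h2)
      apply mul_le_mul _ h4 (Real.exp_pos _).le (mul_nonneg (hNG0 _) (norm_nonneg _))
      exact mul_le_mul_of_nonneg_right h3 (norm_nonneg _)
    have e : Real.exp (-(34 * n)) * ‖aeval (zl j) Q‖ * Real.exp (-(51 * n)) =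
        ‖aeval (zl j) Q‖ * (Real.exp (85 * n))⁻¹ := by
      rw [← Real.exp_neg, mul_right_comm, ← Real.exp_add, mul_comm]
      congr 2
      ring
    rw [e, ← div_eq_mul_inv, div_le_iff₀ (Real.exp_pos _)] at h5
    exact h5
  have hQk : ∀ k ∈ sF n, |((Q.eval (-(k : ℚ)) : ℚ) : ℝ)| ≤ Real.exp (125 * n) * B := by
    intro k hk
    rw [Finset.mem_Icc] at hk
    have h := lagr_bound (n := n) Q (8 * n - 2) (by omega) hQ k (by omega) hk.2 (B * Real.exp (85 * n)) hA
    refine h.trans ?_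
    have h1 : (((8 * n - 2 : ℕ) : ℝ) + 1) ≤ Real.exp (8 * n) := by
      have h2 := Real.add_one_le_exp (8 * (n : ℝ))
      have h3 : ((8 * n - 2 : ℕ) : ℝ) ≤ 8 * n := by exact_mod_cast (by omega : 8 * n - 2 ≤ 8 * n)
      linarith
    have h4 : (2 : ℝ) ^ (8 * n - 2) ≤ Real.exp (8 * n) := by
      calc (2 : ℝ) ^ (8 * n - 2) ≤ 2 ^ (8 * n) := pow_le_pow_right₀ (by norm_num) (by omega)
        _ ≤ Real.exp ((8 * n : ℕ) : ℝ) := exp_ge_pow 2 (by norm_num) (by have := Real.exp_one_gt_d9; linarith) _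
        _ = _ := by push_cast; rfl
    calc (((8 * n - 2 : ℕ) : ℝ) + 1) * (B * Real.exp (85 * n) * (2 ^ (8 * n - 2) * Real.exp (18 * n)))
        ≤ Real.exp (8 * n) * (B * Real.exp (85 * n) * (Real.exp (8 * n) * Real.exp (18 * n))) := by
          apply mul_le_mul h1 _ (by positivity) (Real.exp_pos _).le
          apply mul_le_mul_of_nonneg_left _ (by positivity)
          exact mul_le_mul_of_nonneg_right h4 (Real.exp_pos _).le
      _ = Real.exp (119 * n) * B := by
          rw [show Real.exp (119 * n) = Real.exp (8 * n) * Real.exp (85 * n) * Real.exp (8 * n) * Real.exp (18 * n) by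
            rw [← Real.exp_add, ← Real.exp_add, ← Real.exp_add]; congr 1; ring]
          ring
      _ ≤ _ := by
          apply mul_le_mul_of_nonneg_right _ hB0
          apply Real.exp_le_exp.2
          nlinarith
  unfold rho
  push_cast
  refine (Finset.abs_sum_le_sum_abs _ _).trans ?_
  have hcard : (sF n).card = 7 * n := by
    rw [Nat.card_Icc]; omega
  calc ∑ k ∈ sF n, |((pa (sF n) mF (PF n * Q) k 2 : ℚ) : ℝ)|
      ≤ ∑ _k ∈ sF n, Real.exp (58 * n) * (Real.exp (125 * n) * B) :=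
        Finset.sum_le_sum fun k hk => b_le hk Q _ (hQk k hk)
    _ = 7 * n * (Real.exp (58 * n) * (Real.exp (125 * n) * B)) := by
        rw [Finset.sum_const, hcard, nsmul_eq_mul]
        push_cast
        ring
    _ ≤ Real.exp (7 * n) * (Real.exp (58 * n) * (Real.exp (125 * n) * B)) := by
        apply mul_le_mul_of_nonneg_right _ (by positivity)
        have := Real.add_one_le_exp (7 * (n : ℝ))
        linarith
    _ = Real.exp (190 * n) * B := by
        rw [show Real.exp (190 * n) = Real.exp (7 * n) * Real.exp (58 * n) * Real.exp (125 * n) by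
          rw [← Real.exp_add, ← Real.exp_add]; congr 1; ring]
        ring
    _ ≤ _ := by
        apply mul_le_mul_of_nonneg_right _ hB0
        apply Real.exp_le_exp.2
        nlinarith

end Mea

end

end Pool.Agent.ZF
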