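import Pool.Agent.H383.Z34.AM
import Pool.Agent.H387R3.ZF.B2
import Pool.Agent.H312R3.M34.B1
import Pool.Agent.H312R3.M34.Rho

/-!
# The archimedean part, uniformly in the coefficients
-/

open Polynomial Pool.Agent.H337R2 Filter Topology

namespace Pool.Agent.ZF

noncomputable section

namespace Mea

theorem NL_gen_le : ∃ C : ℝ, 1 ≤ C ∧ ∀ n : ℕ, 1 ≤ n → ∀ α β : ℚ,
    ∀ Q : ℚ[X], Q.natDegree ≤ 8 * n - 2 → ∀ B : ℝ,
    (∀ y : ℝ, NG n y * ‖aeval (zl y) Q‖ * Real.exp (-(2 * Real.pi * |y|)) ≤ B * (1 + y ^ 2)⁻¹) →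
    |((NL n α β Q : ℚ) : ℝ)| ≤
      (C * (1 + |(β : ℝ)|) + 6 * |zr 4 - α - β * zr 3| * Real.exp (200 * n)) * B := by
  obtain ⟨C3, hC3, hK3⟩ := KK_exp (b := 3) (by norm_num)
  obtain ⟨C2, hC2, hK2⟩ := KK_exp (b := 2) (by norm_num)
  refine ⟨2 * C3 + 3 * C2 + 1, by linarith, fun n hn α β Q hQ B hB0 => ?_⟩
  have hB : ∀ y : ℝ, ‖Rn n y‖ * ‖aeval (zl y) Q‖ * Real.exp (-(2 * Real.pi * |y|)) ≤ B * (1 + y ^ 2)⁻¹ := by
    intro y
    rw [AMx.Rn_norm]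
    exact hB0 y
  obtain ⟨F2, F1, h2, h1, hNL⟩ := B1_gen hn α β Q hQ
  have hdeg := B3_deg' hn Q hQ
  have hs : ∀ k ∈ sF n, 1 ≤ k := by
    intro k hk
    rw [Finset.mem_Icc] at hk
    omega
  have hB' : ∀ y : ℝ, ‖Rc (sF n) mF (PF n * Q) y‖ * Real.exp (-(2 * Real.pi * |y|)) ≤ B * (1 + y ^ 2)⁻¹ := by
    intro y
    refine le_trans (le_of_eq ?_) (hB y)
    rw [Rc_eq _ _ _ hdeg y, map_mul]
    unfold Rn
    rw [norm_div, norm_div, norm_mul]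
    ring
  have e2 : |F2| ≤ C3 * B :=
    F_le_integral (sF n) mF (PF n * Q) hdeg hs (b := 3) le_rfl F2 h2 B hB' C3 hC3.le hK3
  have e1 : |F1| ≤ C2 * B :=
    B2_kernel2 (sF n) mF (PF n * Q) (B3_deg hn Q hQ) hs F1 h1 B hB' C2 hC2.le hK2
  have e0 := rho_le hn Q hQ B hB0
  have hBn : 0 ≤ B := by
    have h3 : 0 ≤ C3 * B := (abs_nonneg _).trans e2
    exact nonneg_of_mul_nonneg_right h3 hC3
  set δ : ℝ := zr 4 - α - β * zr 3 with hδ
  rw [hNL]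
  have t1 : |2 * F2 + 3 * (β : ℝ) * F1 - 6 * δ * ((rho n (PF n * Q) : ℚ) : ℝ)| ≤
      2 * |F2| + 3 * |(β : ℝ)| * |F1| + 6 * |δ| * |((rho n (PF n * Q) : ℚ) : ℝ)| := by
    refine (abs_sub _ _).trans ?_
    refine (add_le_add_left (abs_add_le _ _) _).trans (le_of_eq ?_)
    rw [abs_mul, abs_mul, abs_mul, abs_mul, abs_mul]
    norm_num
  refine t1.trans ?_
  have hb0 : 0 ≤ |(β : ℝ)| := abs_nonneg _
  have t2 := mul_le_mul_of_nonneg_left e1 (by positivity : 0 ≤ 3 * |(β : ℝ)|)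
  have t3 := mul_le_mul_of_nonneg_left e0 (by positivity : 0 ≤ 6 * |δ|)
  have t4 : 0 ≤ |(β : ℝ)| * (C3 * B) := by positivity
  have t5 : 0 ≤ C2 * B := by positivity
  have t6 : 0 ≤ |(β : ℝ)| * B := by positivity
  nlinarith

theorem A_unif : ∃ C : ℕ, 1 ≤ C ∧ ∀ᶠ N : ℕ in atTop, ∀ n : ℕ, n = 24 * N + 1 → ∀ (α β : ℚ) (H : ℕ),
    1 ≤ H → |(β : ℝ)| ≤ H → |zr 4 - α - β * zr 3| ≤ Real.exp (-(200 * n)) →
    DET n α β (4 * n) ≠ 0 →
    Real.log |((DET n α β (4 * n) : ℚ) : ℝ)| ≤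
      16 * (n : ℝ) ^ 2 * Real.log n - 57 * (n : ℝ) ^ 2 + 4 * n * Real.log ((C : ℝ) * H) := by
  obtain ⟨C0, hC0, hNL⟩ := NL_gen_le
  refine ⟨⌈2 * C0 + 6⌉₊, ?_, ?_⟩
  · apply Nat.one_le_iff_ne_zero.2
    intro h
    rw [Nat.ceil_eq_zero] at h
    linarith
  have hceil : 2 * C0 + 6 ≤ (⌈2 * C0 + 6⌉₊ : ℝ) := Nat.le_ceil _
  set C := ⌈2 * C0 + 6⌉₊ with hC
  have hCpos : (0 : ℝ) < C := by linarith
  filter_upwards [G4.arch_of G1_main 1 one_pos (85 / 100) (by norm_num), eventually_ge_atTop 1] with N hN hN1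
  intro n hn α β H hH hβ hδ hD
  have hn1 : 1 ≤ n := by omega
  have hH1 : (1 : ℝ) ≤ H := by exact_mod_cast hH
  have hHpos : (0 : ℝ) < H := by linarith
  have hCH : (0 : ℝ) < (C : ℝ) * H := by positivity
  set c : ℚ := ((C : ℚ) * H)⁻¹ with hc
  have hcR : ((c : ℚ) : ℝ) = ((C : ℝ) * H)⁻¹ := by rw [hc]; push_cast; rfl
  have hc0 : c ≠ 0 := by
    rw [hc]
    apply inv_ne_zero
    apply mul_ne_zero
    · intro h
      have : ((C : ℚ) : ℝ) = 0 := by rw [h]; simp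
      rw [Rat.cast_natCast] at this
      linarith
    · exact_mod_cast (by omega : H ≠ 0)
  have hL : ∀ Q : ℚ[X], Q.natDegree ≤ 8 * n - 2 → ∀ B : ℝ,
      (∀ y : ℝ, NG n y * ‖aeval (zl y) Q‖ * Real.exp (-(2 * Real.pi * |y|)) ≤ B * (1 + y ^ 2)⁻¹) →
      |(((c • NL n α β) Q : ℚ) : ℝ)| ≤ 1 * B := by
    intro Q hQ B hB
    have h1 := hNL n hn1 α β Q hQ B hB
    have hB0 : 0 ≤ B := by
      have h := hB 0
      have h2 : 0 ≤ NG n 0 * ‖aeval (zl 0) Q‖ * Real.exp (-(2 * Real.pi * |0|)) :=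
        mul_nonneg (mul_nonneg (by unfold NG; positivity) (norm_nonneg _)) (Real.exp_pos _).le
      have h3 : B * (1 + (0 : ℝ) ^ 2)⁻¹ = B := by norm_num
      rw [h3] at h
      exact h2.trans h
    rw [LinearMap.smul_apply, smul_eq_mul]
    push_cast
    rw [hcR, abs_mul, abs_of_pos (inv_pos.2 hCH), one_mul, inv_mul_le_iff₀ hCH]
    refine h1.trans ?_
    apply mul_le_mul_of_nonneg_right _ hB0
    have h4 : |zr 4 - α - β * zr 3| * Real.exp (200 * n) ≤ 1 := by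
      have := mul_le_mul_of_nonneg_right hδ (Real.exp_pos (200 * n)).le
      rwa [← Real.exp_add, neg_add_cancel, Real.exp_zero] at this
    have h5 : C0 * (1 + |(β : ℝ)|) ≤ C0 * (2 * H) := by
      apply mul_le_mul_of_nonneg_left _ (by linarith)
      linarith
    have h6 : (2 * C0 + 6) * (H : ℝ) ≤ (C : ℝ) * H := mul_le_mul_of_nonneg_right hceil hHpos.le
    nlinarith
  have hdet : (Matrix.of fun i j : Fin (4 * n) => (c • NL n α β) (X ^ (i.1 + j.1))).det =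
      c ^ (4 * n) * DET n α β (4 * n) := by
    have e : (Matrix.of fun i j : Fin (4 * n) => (c • NL n α β) (X ^ (i.1 + j.1))) =
        c • (Matrix.of fun i j : Fin (4 * n) => NL n α β (X ^ (i.1 + j.1))) := by
      ext i j
      simp only [Matrix.of_apply, Matrix.smul_apply, LinearMap.smul_apply]
    rw [e, Matrix.det_smul, Fintype.card_fin]
    rfl
  have h1 := hN n hn (c • NL n α β) hL (by
    rw [hdet]
    exact mul_ne_zero (pow_ne_zero _ hc0) hD)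
  rw [hdet] at h1
  push_cast at h1
  have hDpos : 0 < |((DET n α β (4 * n) : ℚ) : ℝ)| := abs_pos.2 (by exact_mod_cast hD)
  rw [hcR, abs_mul, abs_of_pos (pow_pos (inv_pos.2 hCH) _), Real.log_mul (pow_pos (inv_pos.2 hCH) _).ne' hDpos.ne',
    Real.log_pow, Real.log_inv] at h1
  push_cast at h1
  have h2 := G5_num
  have h3 : (0 : ℝ) ≤ (n : ℝ) ^ 2 := by positivity
  have h4 : (4 * PhiG - 7513 / 576 * Real.log 2 + 85 / 100) * (n : ℝ) ^ 2 ≤ -57 * (n : ℝ) ^ 2 := by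
    apply mul_le_mul_of_nonneg_right _ h3
    linarith
  linarith

end Mea

end

end Pool.Agent.ZF
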