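import Pool.Agent.H387R3.ZF.Z

/-!
# Non-vanishing, uniformly in the coefficients
-/

open Polynomial Pool.Agent.H337R2 Filter Topology

namespace Pool.Agent.ZF

noncomputable section

namespace Mea

theorem H6u_of (H3_diag : H6_H3) (H4_offdiag : H6_H4) (H5_local : H6_H5) :
    ∃ p0 : ℕ, ∀ p : ℕ, p0 ≤ p → p.Prime → ∀ α β : ℚ, padicNorm p α ≤ 1 → padicNorm p β ≤ 1 →
      DET p α β (4 * p) ≠ 0 := by
  -- bounds on the constants
  obtain ⟨p1, hp1⟩ := Pool.Agent.H336R2.HD.H6_unit _ H5_local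
  obtain ⟨p2, hp2⟩ := Pool.Agent.H574R2.D3.H6_fin_int Fm 7
  refine ⟨p1 + p2 + 100, fun p hp hpp α β hαp hβp => ?_⟩
  have : Fact p.Prime := ⟨hpp⟩
  have hp100 : 100 ≤ p := by omega
  have hp0 : (p : ℚ) ≠ 0 := by exact_mod_cast hpp.ne_zero
  -- choose the units
  have hw : ∀ r : Fin p, ∃ w : ℚ, padicNorm p w = 1 ∧ ∀ e : ℕ, e ≤ 6 →
      padicNorm p ((p : ℚ) ^ (2 - (e : ℤ)) *
        NL p α β ((X + C ((r.1 + 1 : ℕ) : ℚ)) ^ e * OT p (r.1 + 1) 8) - w * Fm e) ≤ (p : ℚ)⁻¹ := by
    intro r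
    have hr := r.2
    exact H3_diag hp100 α β hαp hβp (r.1 + 1) (by omega) (by omega)
  choose w hw1 hw2 using hw
  -- the Gram matrix
  set Q : Fin 4 × Fin p → ℚ[X] := fun a => H6_P p (a.2.1 + 1) a.1.1 with hQ
  set G : Matrix (Fin 4 × Fin p) (Fin 4 × Fin p) ℚ :=
    Matrix.of fun a b => NL p α β (Q a * Q b) with hG
  have key : G.det ≠ 0 := by
    set c : Fin 4 × Fin p → ℚ := fun a => (p : ℚ) ^ (1 - (a.1.1 : ℤ)) with hc
    set M : Matrix (Fin 4 × Fin p) (Fin 4 × Fin p) ℚ :=
      Matrix.of fun a b => c a * c b * G a b with hM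
    set Bl : Fin p → Matrix (Fin 4) (Fin 4) ℚ := fun r =>
      Matrix.of fun l l' => w r * Fm (l.1 + l'.1) with hBl
    have hcc : ∀ a b : Fin 4 × Fin p, c a * c b = (p : ℚ) ^ (2 - (a.1.1 : ℤ) - (b.1.1 : ℤ)) := by
      intro a b
      simp only [hc]
      rw [← zpow_add₀ hp0]
      congr 1
      ring
    have hM0 : M.det ≠ 0 := by
      apply Pool.Agent.H336R2.HD.A6_det_congr p M (Matrix.blockDiagonal Bl)
      · intro a b
        rw [Matrix.blockDiagonal_apply]
        split_ifs with hab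
        · simp only [hBl, Matrix.of_apply]
          have ha := a.1.2
          have hb := b.1.2
          have h1 : padicNorm p (Fm (a.1.1 + b.1.1)) ≤ 1 :=
            hp2 _ (Finset.mem_range.2 (by omega)) p (by omega) hpp
          rw [padicNorm.mul, hw1, one_mul]
          exact h1
        · simp
      · intro a b
        rw [Matrix.blockDiagonal_apply]
        have ha := a.1.2
        have hb := b.1.2
        have ha2 := a.2.2
        have hb2 := b.2.2
        have hMab : M a b = (p : ℚ) ^ (2 - (a.1.1 : ℤ) - (b.1.1 : ℤ)) *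
            NL p α β (H6_P p (a.2.1 + 1) a.1.1 * H6_P p (b.2.1 + 1) b.1.1) := by
          simp only [hM, hG, Matrix.of_apply, hQ]
          rw [hcc]
        split_ifs with hab
        · rw [hMab, ← hab, H6_P_mul]
          have h1 := hw2 a.2 (a.1.1 + b.1.1) (by omega)
          have h2 : (2 - ((a.1.1 + b.1.1 : ℕ) : ℤ)) = 2 - (a.1.1 : ℤ) - (b.1.1 : ℤ) := by
            push_cast
            ring
          rw [h2] at h1
          simp only [hBl, Matrix.of_apply]
          exact h1
        · rw [hMab, sub_zero]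
          refine H4_offdiag hp100 α β hαp hβp (a.2.1 + 1) (b.2.1 + 1) a.1.1 b.1.1 (by omega)
            (by omega) (by omega) (by omega) ?_ ha hb
          intro h1
          apply hab
          ext
          omega
      · rw [Matrix.det_blockDiagonal]
        apply Pool.Agent.H574R2.D3.H6_norm_prod p
        intro r
        have h1 : Bl r = Matrix.of fun l l' => (w r) *
              (Matrix.of fun l l' : Fin 4 => Fm (l.1 + l'.1)) l l' := by
          ext l l'
          simp only [hBl, Matrix.of_apply]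
        rw [h1, Matrix.det_mul_column (fun _ => w r)]
        rw [padicNorm.mul, Pool.Agent.H574R2.D3.H6_norm_prod p _ (fun _ => hw1 r),
          hp1 p (by omega) hpp]
        norm_num
    intro h0
    apply hM0
    rw [hM, Pool.Agent.H336R2.HD.H6_det_scale, h0, mul_zero, mul_zero]
  -- conclusion
  have hcard : Fintype.card (Fin 4 × Fin p) = Fintype.card (Fin (4 * p)) := by
    simp only [Fintype.card_prod, Fintype.card_fin]
  obtain ⟨e⟩ := Fintype.card_eq.1 hcard
  unfold DET
  apply Pool.Agent.H336R2.HD.A2_gram_ne (NL p α β) (4 * p) e Q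
  · intro a
    have ha := a.1.2
    have ha2 := a.2.2
    exact H6_P_natDegree p _ _ (by omega) (by omega) ha
  · exact key


theorem H6_unif : ∃ p0 : ℕ, ∀ p : ℕ, p0 ≤ p → p.Prime → ∀ α β : ℚ, padicNorm p α ≤ 1 →
    padicNorm p β ≤ 1 → DET p α β (4 * p) ≠ 0 :=
  H6u_of (fun hp α β hα hβ r hr1 hr2 => H3_diag hp α β hα hβ r hr1 hr2)
    (fun hp α β hα hβ r s l l' hr1 hr2 hs1 hs2 hrs hl hl' =>
      H4_offdiag hp α β hα hβ r s l l' hr1 hr2 hs1 hs2 hrs hl hl')
    H5_local

end Mea

end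

end Pool.Agent.ZF
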