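import Pool.Agent.H312R2.PG.ClassPrimes

/-! A prime `p ≡ 1 (mod 24)` in `(3 M, 12 M]` which does not divide `d`, when `log d ≤ M`. -/

open Finset Filter Topology

namespace Pool.Agent.ZF

namespace Mea

theorem cls24 : ∃ N0 : ℕ, ∀ N : ℕ, N0 ≤ N →
    (99 / 100 : ℝ) * (N / 8) ≤ Pool.Agent.H312R2.PG.cls 24 N ∧
    Pool.Agent.H312R2.PG.cls 24 N ≤ (101 / 100 : ℝ) * (N / 8) := by
  have : NeZero (24 : ℕ) := ⟨by norm_num⟩
  have ht : ((Nat.totient 24 : ℕ) : ℝ) = 8 := by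
    have : Nat.totient 24 = 8 := by decide
    rw [this]; norm_num
  have h0 := (Pool.Agent.Helper923.H403.PNT602.pnt_residueClass (q := 24) (a := 1) isUnit_one).comp
    tendsto_natCast_atTop_atTop
  rw [ht] at h0
  have h1 := h0.eventually (Ioo_mem_nhds (show (99 / 100 : ℝ) * (8 : ℝ)⁻¹ < (8 : ℝ)⁻¹ by norm_num)
    (show (8 : ℝ)⁻¹ < (101 / 100 : ℝ) * (8 : ℝ)⁻¹ by norm_num))
  obtain ⟨N0, hN0⟩ := eventually_atTop.1 (h1.and (eventually_ge_atTop 1))
  refine ⟨N0, fun N hN => ?_⟩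
  obtain ⟨⟨h2, h3⟩, h4⟩ := hN0 N hN
  simp only [Function.comp, Nat.floor_natCast] at h2 h3
  have hNpos : (0 : ℝ) < N := by exact_mod_cast h4
  rw [lt_div_iff₀ hNpos] at h2
  rw [div_lt_iff₀ hNpos] at h3
  unfold Pool.Agent.H312R2.PG.cls
  constructor
  · calc (99 / 100 : ℝ) * (N / 8) = 99 / 100 * (8 : ℝ)⁻¹ * N := by ring
      _ ≤ _ := h2.le
  · calc _ ≤ 101 / 100 * (8 : ℝ)⁻¹ * N := h3.le
      _ = _ := by ring

theorem prime_sel24 : ∃ M0 : ℕ, ∀ M : ℕ, M0 ≤ M → ∀ d : ℕ, d ≠ 0 → Real.log d ≤ M →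
    ∃ p : ℕ, p.Prime ∧ 3 * M < p ∧ p ≤ 12 * M ∧ p ≡ 1 [MOD 24] ∧ ¬ p ∣ d := by
  classical
  obtain ⟨N0, hN0⟩ := cls24
  obtain ⟨C, hC⟩ := Chebyshev.psi_sub_theta_le_mul_sqrt
  have e1 : ∀ᶠ M : ℕ in atTop, C * Real.sqrt (12 * M) ≤ (1 / 100) * M := by
    have h1 : Tendsto (fun x : ℝ => 12 * C * (Real.sqrt (12 * x))⁻¹) atTop (𝓝 0) := by
      have h0 : Tendsto (fun x : ℝ => 12 * x) atTop atTop := Tendsto.const_mul_atTop (by norm_num) tendsto_id
      have := (tendsto_inv_atTop_zero.comp (Real.tendsto_sqrt_atTop.comp h0)).const_mul (12 * C)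
      simpa [Function.comp_def] using this
    have h2 := (h1.comp tendsto_natCast_atTop_atTop).eventually (gt_mem_nhds
      (show (0 : ℝ) < 1 / 100 by norm_num))
    filter_upwards [h2, eventually_ge_atTop 1] with M h3 h4
    simp only [Function.comp] at h3
    have hM : (0 : ℝ) < M := by exact_mod_cast h4
    have hs : 0 < Real.sqrt (12 * M) := Real.sqrt_pos.2 (by positivity)
    have hs2 : Real.sqrt (12 * M) * Real.sqrt (12 * M) = 12 * M := Real.mul_self_sqrt (by positivity)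
    have h5 : C * Real.sqrt (12 * M) = (12 * C * (Real.sqrt (12 * M))⁻¹) * M := by
      field_simp
      rw [pow_two, hs2]
      ring
    rw [h5]
    exact mul_le_mul_of_nonneg_right h3.le hM.le
  have e2 : ∀ᶠ M : ℕ in atTop, (28 : ℝ) ≤ Real.log (3 * M) := by
    have h0 : Tendsto (fun x : ℝ => 3 * x) atTop atTop := Tendsto.const_mul_atTop (by norm_num) tendsto_id
    exact ((Real.tendsto_log_atTop.comp h0).comp tendsto_natCast_atTop_atTop).eventually_ge_atTop 28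
  obtain ⟨M0, hM0⟩ := eventually_atTop.1 (e1.and (e2.and ((eventually_ge_atTop N0).and (eventually_ge_atTop 1))))
  refine ⟨M0, fun M hM d hd hlog => ?_⟩
  obtain ⟨g1, g2, g3, g4⟩ := hM0 M hM
  have hMr : (1 : ℝ) ≤ M := by exact_mod_cast g4
  by_contra hcon
  push Not at hcon
  set S := (Icc 1 (12 * M)).filter (fun q => q.Prime ∧ 3 * M < q ∧ q ≡ 1 [MOD 24]) with hS
  have hmem : ∀ q ∈ S, q ≤ 12 * M ∧ q.Prime ∧ 3 * M < q ∧ q ≡ 1 [MOD 24] := by
    intro q hq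
    rw [hS, mem_filter, mem_Icc] at hq
    exact ⟨hq.1.2, hq.2⟩
  have hdvd : ∏ q ∈ S, q ∣ d := by
    apply Finset.prod_primes_dvd
    · intro q hq
      exact (hmem q hq).2.1.prime
    · intro q hq
      obtain ⟨a1, a2, a3, a4⟩ := hmem q hq
      exact hcon q a2 a3 a1 a4
  have hle : ∏ q ∈ S, q ≤ d := Nat.le_of_dvd (Nat.pos_of_ne_zero hd) hdvd
  have hpow : (3 * M) ^ #S ≤ ∏ q ∈ S, q := by
    rw [← Finset.prod_const]
    exact Finset.prod_le_prod' (fun q hq => (hmem q hq).2.2.1.le)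
  have hl : (#S : ℝ) * Real.log (3 * M) ≤ M := by
    refine le_trans ?_ hlog
    rw [← Real.log_pow]
    apply Real.log_le_log (by positivity)
    exact_mod_cast hpow.trans hle
  have h12 := (hN0 (12 * M) (by omega)).1
  have h3 := (hN0 (3 * M) (by omega)).2
  have hc := Pool.Agent.H312R2.PG.cls_le_primes 24 (12 * M) (3 * M)
  have hps : Chebyshev.psi ((12 * M : ℕ) : ℝ) - Chebyshev.theta ((12 * M : ℕ) : ℝ) ≤ (1 / 100) * M := by
    refine (hC _).trans ?_
    push_cast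
    exact g1
  push_cast at h12 h3 hc hps
  have hlog4 : Real.log (12 * M) = Real.log (3 * M) + Real.log 4 := by
    rw [← Real.log_mul (by positivity) (by norm_num)]
    congr 1; ring
  have hl4 : Real.log 4 ≤ 14 / 10 := by
    have : Real.log 4 = 2 * Real.log 2 := by
      rw [show (4 : ℝ) = 2 ^ 2 by norm_num, Real.log_pow]; norm_num
    rw [this]
    have := Real.log_two_lt_d9
    linarith
  have hl40 : 0 ≤ Real.log 4 := Real.log_nonneg (by norm_num)
  have hS0 : (0 : ℝ) ≤ (#S : ℝ) := Nat.cast_nonneg _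
  have hS1 : (#S : ℝ) * 28 ≤ M := le_trans (mul_le_mul_of_nonneg_left g2 hS0) hl
  have hS2 : (#S : ℝ) * Real.log (12 * M) ≤ M + (#S : ℝ) * (14 / 10) := by
    rw [hlog4, mul_add]
    exact add_le_add hl (mul_le_mul_of_nonneg_left hl4 hS0)
  rw [← hS] at hc
  linarith

end Mea

end Pool.Agent.ZF
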