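import Pool.Agent.H387R3.ZF.Z

/-!
# The p-adic part, uniformly in the coefficients
-/

open Polynomial Pool.Agent.H337R2 Filter Topology

namespace Pool.Agent.ZF

noncomputable section

namespace Mea

/-- **the p-adic part**, from the results of the other tasks -/
theorem P_unif_list (L : List Cell) (hchk : PMchk 1 40 L = true) (hmed : PMmed) (hcrude : PMcrude)
    (hE4 : ∀ c ∈ L, ∃ K0 : ℝ, PMcell c K0)
    (hE5ok : L.all Cell.ok = true)
    (hF1 : ∀ (lo hi : ℚ), 0 < lo → lo ≤ hi → hi ≤ 14 → ∀ (A B : ℤ),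
      Tendsto (fun n : ℕ => (∑ p ∈ PR lo hi n, ((A : ℝ) * n + B * p) * Real.log p) / (n : ℝ) ^ 2) atTop
        (𝓝 (((A * (hi - lo) + B * (hi ^ 2 - lo ^ 2) / 2 : ℚ)) : ℝ)))
    (hF3 : (L.map Cell.lim).sum ≤ 5297 / 100)
    (hF4 : ∀ {c : Cell}, c.ok = true → ∀ {n p : ℕ}, 1 ≤ n → 0 < p → c.u0 * n < p * c.v0 →
      p * c.v1 ≤ c.u1 * n →
      ((2 * ∑ i ∈ Finset.range (4 * n), (i / p) : ℕ) : ℤ) = c.sf.1 * n + c.sf.2 * p)
    (hF5 : ∀ᶠ n : ℕ in atTop,
      ∑ p ∈ (Finset.range (n + 1)).filter (fun p : ℕ => p.Prime ∧ 40 * p ≤ n),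
        2 * ∑ i ∈ Finset.range (4 * n), Real.log ((padicNorm p ((i.factorial : ℕ) : ℚ) : ℚ) : ℝ) ≤
      - (2 * ∑ i ∈ Finset.range (4 * n), Real.log (i.factorial : ℝ)) +
        ∑ p ∈ PR (1 / 40) 10 n, ((2 * ∑ i ∈ Finset.range (4 * n), (i / p) : ℕ) : ℝ) * Real.log p)
    (hF6 : ∀ ε : ℝ, 0 < ε → ∀ᶠ n : ℕ in atTop,
      16 * (n : ℝ) ^ 2 * Real.log n - (182 / 100 + ε) * (n : ℝ) ^ 2 ≤
        2 * ∑ i ∈ Finset.range (4 * n), Real.log (i.factorial : ℝ))
    (hF7 : ∀ ε : ℝ, 0 < ε → ∀ᶠ n : ℕ in atTop,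
      4 * (n : ℝ) * ∑ p ∈ (Finset.range (n + 1)).filter (fun p : ℕ => p.Prime ∧ p ^ 2 ≤ 14 * n),
          40 * Real.log (14 * n + 1) +
      16 * (n : ℝ) * ∑ p ∈ (Finset.range (n + 1)).filter (fun p : ℕ => p.Prime ∧ 40 * p ≤ n), Real.log p ≤
      (16 / 40 + ε) * (n : ℝ) ^ 2) :
    ∀ ε : ℝ, 0 < ε → ∀ᶠ n : ℕ in atTop, ∀ (q : ℕ) (α β : ℚ), QI q α → QI q β →
    DET n α β (4 * n) ≠ 0 →
    ∑ p ∈ (Finset.range (10 * n + 1)).filter Nat.Prime,
      Real.log ((padicNorm p ((q : ℚ) ^ (4 * n) * DET n α β (4 * n)) : ℚ) : ℝ) ≤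
    -(16 * (n : ℝ) ^ 2 * Real.log n) + (552 / 10 + ε) * (n : ℝ) ^ 2 := by
  classical
  intro ε hε
  obtain ⟨K, hK, hcell⟩ := PM_bound L PMcell PMcell_mono hE4
  -- the limit of the sum over the cells
  have hlim : Tendsto (fun n : ℕ => (L.map fun c => ∑ p ∈ PR (PMlo c) (PMhi c) n,
        (((c.AB.1 + c.sf.1 : ℤ) : ℝ) * n + ((c.AB.2 + c.sf.2 : ℤ) : ℝ) * p) * Real.log p).sum /
        (n : ℝ) ^ 2) atTop (𝓝 (((L.map Cell.lim).sum : ℚ) : ℝ)) := by
    have h1 := PM_tendsto L (fun c n => (∑ p ∈ PR (PMlo c) (PMhi c) n,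
        (((c.AB.1 + c.sf.1 : ℤ) : ℝ) * n + ((c.AB.2 + c.sf.2 : ℤ) : ℝ) * p) * Real.log p) /
        (n : ℝ) ^ 2) (fun c => ((c.lim : ℚ) : ℝ)) (by
      intro c hc
      have hok : c.ok = true := List.all_eq_true.1 hE5ok c hc
      have hpos : 0 < c.u0 ∧ 0 < c.v0 ∧ 0 < c.v1 ∧ c.u0 * c.v1 < c.u1 * c.v0 := by
        have hok' := hok
        unfold Cell.ok at hok'
        simp only [Bool.and_eq_true, decide_eq_true_eq] at hok'
        tauto
      obtain ⟨p1, p2, p3, p4⟩ := hpos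
      have hlo : 0 < PMlo c := by
        unfold PMlo
        have q1 : (0 : ℚ) < c.u0 := by exact_mod_cast p1
        have q2 : (0 : ℚ) < c.v0 := by exact_mod_cast p2
        positivity
      have hlh : PMlo c ≤ PMhi c := by
        unfold PMlo PMhi
        rw [div_le_div_iff₀ (by exact_mod_cast p2) (by exact_mod_cast p3)]
        exact_mod_cast p4.le
      have hhi : PMhi c ≤ 10 := by
        have key : ∀ (L' : List Cell) (u v : ℕ), PMchk u v L' = true → ∀ c ∈ L', PMhi c ≤ 10 := by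
          intro L'
          induction L' with
          | nil => intro u v _ c hc; exact absurd hc List.not_mem_nil
          | cons d l ih =>
            intro u v h c hc
            simp only [PMchk, Bool.and_eq_true, decide_eq_true_eq] at h
            rcases List.mem_cons.1 hc with rfl | hc
            · exact (PM_chain l c.u1 c.v1 h.2).1
            · exact ih _ _ h.2 c hc
        exact key L 1 40 hchk c hc
      exact hF1 (PMlo c) (PMhi c) hlo hlh (hhi.trans (by norm_num)) _ _)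
    have e1 : (L.map fun c => ((c.lim : ℚ) : ℝ)).sum = (((L.map Cell.lim).sum : ℚ) : ℝ) := by
      rw [Rat.cast_list_sum, List.map_map]
      rfl
    rw [e1] at h1
    refine h1.congr fun n => ?_
    rw [div_eq_mul_inv, ← List.sum_map_mul_right]
    simp only [div_eq_mul_inv]
  have hF3' : (((L.map Cell.lim).sum : ℚ) : ℝ) ≤ 5297 / 100 := by
    have h := (Rat.cast_le (K := ℝ)).2 hF3
    push_cast at h ⊢
    exact h
  have hε8 : 0 < ε / 8 := by positivity
  have ev1 := PM_ev hlim (ε / 8) hε8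
  have ev6 := hF6 (ε / 8) hε8
  have ev7 := hF7 (ε / 8) hε8
  have ev9 : ∀ᶠ n : ℕ in atTop, K * (Real.log 4 * 15) ≤ ε / 8 * n := by
    have := (tendsto_natCast_atTop_atTop (R := ℝ)).const_mul_atTop hε8
    exact this.eventually_ge_atTop _
  filter_upwards [ev1, hF5, ev6, ev7, ev9, eventually_ge_atTop 16000] with n g1 g5 g6 g7 g9 hn q α β hα hβ hD
  have hn0 : (0 : ℝ) < n := by exact_mod_cast (by omega : 0 < n)
  have hn1 : 1 ≤ n := by omega
  have hqq : (0 : ℚ) < q := by exact_mod_cast hα.1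
  have hz : (q : ℚ) ^ (4 * n) * DET n α β (4 * n) ≠ 0 := mul_ne_zero (pow_pos hqq _).ne' hD
  rw [← Finset.sum_filter_add_sum_filter_not _ (fun p => 40 * p ≤ n)]
  have e1 : ((Finset.range (10 * n + 1)).filter Nat.Prime).filter (fun p => 40 * p ≤ n) =
      (Finset.range (n + 1)).filter (fun p : ℕ => p.Prime ∧ 40 * p ≤ n) := by
    ext p
    simp only [Finset.mem_filter, Finset.mem_range]
    constructor
    · rintro ⟨⟨h1, h2⟩, h3⟩; exact ⟨by omega, h2, h3⟩
    · rintro ⟨h1, h2, h3⟩; exact ⟨⟨by omega, h2⟩, h3⟩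
  have e2 : ((Finset.range (10 * n + 1)).filter Nat.Prime).filter (fun p => ¬ 40 * p ≤ n) =
      PR (1 / 40) 10 n := by
    ext p
    unfold PR Pool.Agent.LZ.PR
    simp only [Finset.mem_filter, Finset.mem_range]
    constructor
    · rintro ⟨⟨h1, h2⟩, h3⟩
      refine ⟨by omega, h2, ?_, ?_⟩
      · have : (n : ℚ) < 40 * p := by exact_mod_cast (by omega : n < 40 * p)
        linarith
      · exact_mod_cast (by omega : p ≤ 10 * n)
    · rintro ⟨h1, h2, h3, h4⟩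
      have h5 : n < 40 * p := by
        have : (n : ℚ) < 40 * p := by linarith
        exact_mod_cast this
      have h6 : p ≤ 10 * n := by exact_mod_cast h4
      exact ⟨⟨by omega, h2⟩, by omega⟩
  rw [e1, e2]
  have hsmall : ∑ p ∈ (Finset.range (n + 1)).filter (fun p : ℕ => p.Prime ∧ 40 * p ≤ n),
      Real.log ((padicNorm p ((q : ℚ) ^ (4 * n) * DET n α β (4 * n)) : ℚ) : ℝ) ≤
      (4 * (n : ℝ) * ∑ p ∈ (Finset.range (n + 1)).filter (fun p : ℕ => p.Prime ∧ p ^ 2 ≤ 14 * n),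
          40 * Real.log (14 * n + 1) +
      16 * (n : ℝ) * ∑ p ∈ (Finset.range (n + 1)).filter (fun p : ℕ => p.Prime ∧ 40 * p ≤ n), Real.log p) +
      ∑ p ∈ (Finset.range (n + 1)).filter (fun p : ℕ => p.Prime ∧ 40 * p ≤ n),
        2 * ∑ i ∈ Finset.range (4 * n), Real.log ((padicNorm p ((i.factorial : ℕ) : ℚ) : ℚ) : ℝ) := by
    calc _ ≤ ∑ p ∈ (Finset.range (n + 1)).filter (fun p : ℕ => p.Prime ∧ 40 * p ≤ n),
          (4 * (n : ℝ) * (if p ^ 2 ≤ 14 * n then 40 * Real.log (14 * n + 1) else 0) + 16 * (n : ℝ) * Real.log p +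
          2 * ∑ i ∈ Finset.range (4 * n), Real.log ((padicNorm p ((i.factorial : ℕ) : ℚ) : ℚ) : ℝ)) := by
          apply Finset.sum_le_sum
          intro p hp
          rw [Finset.mem_filter] at hp
          exact PM_small hmed hcrude n p hn1 hp.2.1 q α β hα hβ hz
      _ ≤ _ := by
          rw [Finset.sum_add_distrib, Finset.sum_add_distrib, ← Finset.mul_sum, ← Finset.mul_sum]
          apply add_le_add_left
          apply add_le_add_left
          apply mul_le_mul_of_nonneg_left _ (by positivity)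
          rw [← Finset.sum_filter]
          apply Finset.sum_le_sum_of_subset_of_nonneg
          · intro p hp
            simp only [Finset.mem_filter, Finset.mem_range] at hp ⊢
            exact ⟨hp.1.1, hp.1.2.1, hp.2⟩
          · intro p _ _
            have : 0 ≤ Real.log (14 * (n : ℝ) + 1) := Real.log_nonneg (by linarith)
            positivity
  have hlarge := PM_large_sum L hchk hE5ok hF4 K hK hcell n hn q α β hα hβ hz
  rw [Finset.sum_add_distrib] at hlarge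
  have hw : ∑ p ∈ PR (1 / 40) 10 n, PMw n p = ∑ p ∈ PR (1 / 40) 10 n,
      ((2 * ∑ i ∈ Finset.range (4 * n), (i / p) : ℕ) : ℝ) * Real.log p := rfl
  rw [hw] at hlarge
  have hfin : K * (Real.log 4 * (15 * n)) ≤ ε / 8 * (n : ℝ) ^ 2 := by
    have := mul_le_mul_of_nonneg_right g9 hn0.le
    nlinarith
  have hn2 : (0 : ℝ) < (n : ℝ) ^ 2 := by positivity
  have h10 : ((((L.map Cell.lim).sum : ℚ) : ℝ) + ε / 8) * (n : ℝ) ^ 2 ≤
      (5297 / 100 + ε / 8) * (n : ℝ) ^ 2 := by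
    apply mul_le_mul_of_nonneg_right _ hn2.le
    linarith
  have htot : -(16 * (n : ℝ) ^ 2 * Real.log n) + (16 / 40 + 182 / 100 + 5297 / 100 + ε / 2) * (n : ℝ) ^ 2 ≤
      -(16 * (n : ℝ) ^ 2 * Real.log n) + (552 / 10 + ε) * (n : ℝ) ^ 2 := by
    have : (16 / 40 + 182 / 100 + 5297 / 100 + ε / 2) * (n : ℝ) ^ 2 ≤ (552 / 10 + ε) * (n : ℝ) ^ 2 := by
      apply mul_le_mul_of_nonneg_right _ hn2.le
      linarith
    linarith
  refine le_trans ?_ htot
  linarith


/-- the p-adic part, uniform in `q, α, β` -/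
theorem P_unif : ∀ ε : ℝ, 0 < ε → ∀ᶠ n : ℕ in atTop, ∀ (q : ℕ) (α β : ℚ), QI q α → QI q β →
    DET n α β (4 * n) ≠ 0 →
    ∑ p ∈ (Finset.range (10 * n + 1)).filter Nat.Prime,
      Real.log ((padicNorm p ((q : ℚ) ^ (4 * n) * DET n α β (4 * n)) : ℚ) : ℝ) ≤
    -(16 * (n : ℝ) ^ 2 * Real.log n) + (552 / 10 + ε) * (n : ℝ) ^ 2 :=
  P_unif_list cells PMchk_cells (fun hn hp2 q α β hα hβ => D4_small_med hn hp2 q α β hα hβ)
    (fun hn q α β hα hβ => D4_small_crude hn q α β hα hβ)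
    (fun c hc => E4_cell c (List.all_eq_true.1 E5_ok c hc)) E5_ok
    (fun lo hi h0 h1 h2 A B => Pool.Agent.LZ.F1_lin lo hi h0 h1 h2 A B) F3_total
    (fun hc _ _ hn hp h0 h1 => F4_sf hc hn hp h0 h1) F5_fact F6_superfac F7_small

end Mea

end

end Pool.Agent.ZF
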